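import Pool.Agent.H172R3.SM.G

/-!
# Self-dual solutions of the gauged sigma model have at most `4 N - 3` parameters

`F` is any family of smooth finite energy solutions of the self-dual equations of degree `N`,
with parameters `s` in a nonempty open subset `U` of `ℝ^k`, which are pairwise gauge
inequivalent. The only continuity required is that of the gauge invariant function
`(s, z) ↦ n · φ_s (z)`. Then `k ≤ 4 N - 3`.

The proof: a solution is, up to a nonvanishing factor, a quotient of two polynomials with zeros
at the preimages `Q` of `n` and `P` of `s`; the number of points of `P` is `N`, the number of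
points of `Q` is at most `N - 2` (mass bound), and `P`, `Q` and the value of `n · φ` at one more
point determine the solution up to gauge (comparison and a Liouville type argument). Where the
number of distinct points is maximal these data are continuous and injective functions of the
parameters, with values in a space of dimension at most `2 N + 2 (N - 2) + 1`; invariance of
domain gives the bound.
-/

set_option autoImplicit false

namespace Pool.Agent.Results.MP_089002_mp.ParameterBound

open Set Pool.Agent.H172R3.SM Pool.Agent.H172R3.SM.Config
open scoped Matrix

theorem result (N : ℤ) (hN : 2 ≤ N) (k : ℕ) (U : Set (EuclideanSpace ℝ (Fin k)))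
    (hU : IsOpen U) (hne : U.Nonempty) (F : EuclideanSpace ℝ (Fin k) → Config)
    (hsol : ∀ s ∈ U, (F s).IsSolution) (hdeg : ∀ s ∈ U, (F s).HasDegree N)
    (hcont : ContinuousOn (fun q : EuclideanSpace ℝ (Fin k) × ℂ => nn ⬝ᵥ (F q.1).phi q.2)
      (U ×ˢ univ))
    (hinj : ∀ s ∈ U, ∀ t ∈ U, GaugeEquiv (F s) (F t) → s = t) :
    (k : ℤ) ≤ 4 * N - 3 := by
  refine params_le (by omega) hU hne hsol hdeg ?_ hinj
  simpa only [nn_dot] using hcont

end Pool.Agent.Results.MP_089002_mp.ParameterBound
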